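import Mathlib

set_option autoImplicit false

namespace Pool.Agent.H51b

/-- Existence of exponential coefficients `p^(2k) / k!` modulo `p^N` for a prime `p`. -/
theorem exists_exp_coeff (p : ℕ) [hp : Fact p.Prime] (N : ℕ) :
    ∃ e : ℕ → ZMod (p ^ N), e 0 = 1 ∧ e 1 = (p : ZMod (p ^ N)) ^ 2 ∧
      (∀ k, 2 ≤ k → ∃ y, e k = (p : ZMod (p ^ N)) ^ 3 * y) ∧
      (∀ i j, e i * e j = ((i + j).choose i : ZMod (p ^ N)) * e (i + j)) ∧
      (∀ k, 2 * N ≤ k → e k = 0) := by
  -- valuation of the factorial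
  have hv : ∀ k, 1 ≤ k → padicValNat p k.factorial + 1 ≤ k := by
    intro k hk
    exact padicValNat_factorial_lt_of_ne_zero p (n := k) (by omega)
  -- factorisation
  have hfac : ∀ k : ℕ, ∃ m : ℕ, k.factorial = p ^ (padicValNat p k.factorial) * m ∧
      IsUnit (m : ℤ_[p]) := by
    intro k
    obtain ⟨m, hm⟩ := pow_padicValNat_dvd (p := p) (n := k.factorial)
    refine ⟨m, hm, ?_⟩
    rw [PadicInt.isUnit_iff, PadicInt.norm_natCast_eq_one_iff, Nat.Prime.coprime_iff_not_dvd hp.out]
    rintro ⟨m', hm'⟩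
    have := pow_succ_padicValNat_not_dvd (p := p) (Nat.factorial_ne_zero k)
    apply this
    rw [pow_succ]
    exact ⟨m', by rw [mul_assoc, ← hm', ← hm]⟩
  choose m hm hmu using hfac
  choose u hu using hmu
  have hle : ∀ k, padicValNat p k.factorial ≤ k := by
    intro k
    rcases Nat.eq_zero_or_pos k with h | h
    · subst h; simp
    · have := hv k h; omega
  let E : ℕ → ℤ_[p] := fun k =>
    (p : ℤ_[p]) ^ (2 * k - padicValNat p k.factorial) * (↑(u k)⁻¹ : ℤ_[p])
  have hE : ∀ k, (k.factorial : ℤ_[p]) * E k = (p : ℤ_[p]) ^ (2 * k) := by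
    intro k
    have h1 : (k.factorial : ℤ_[p]) = (p : ℤ_[p]) ^ (padicValNat p k.factorial) * (u k : ℤ_[p]) := by
      rw [hu]
      exact_mod_cast congrArg (fun n : ℕ => (n : ℤ_[p])) (hm k)
    rw [h1]
    simp only [E]
    have h2 : (p : ℤ_[p]) ^ padicValNat p k.factorial * (u k : ℤ_[p]) *
        ((p : ℤ_[p]) ^ (2 * k - padicValNat p k.factorial) * (↑(u k)⁻¹ : ℤ_[p])) =
        ((p : ℤ_[p]) ^ padicValNat p k.factorial *
          (p : ℤ_[p]) ^ (2 * k - padicValNat p k.factorial)) *
        ((u k : ℤ_[p]) * (↑(u k)⁻¹ : ℤ_[p])) := by ring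
    rw [h2, ← pow_add, Units.mul_inv, mul_one, Nat.add_sub_cancel' (by have := hle k; omega)]
  have hfne : ∀ k : ℕ, (k.factorial : ℤ_[p]) ≠ 0 := by
    intro k
    exact_mod_cast Nat.factorial_ne_zero k
  have hdvd : ∀ k a, a + padicValNat p k.factorial ≤ 2 * k → ∃ y, E k = (p : ℤ_[p]) ^ a * y := by
    intro k a h
    refine ⟨(p : ℤ_[p]) ^ (2 * k - padicValNat p k.factorial - a) * (↑(u k)⁻¹ : ℤ_[p]), ?_⟩
    simp only [E]
    rw [← mul_assoc, ← pow_add]
    congr 2
    omega
  let φ : ℤ_[p] →+* ZMod (p ^ N) := PadicInt.toZModPow N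
  refine ⟨fun k => φ (E k), ?_, ?_, ?_, ?_, ?_⟩
  · have h := hE 0
    simp only [Nat.factorial_zero, Nat.cast_one, one_mul, mul_zero, pow_zero] at h
    simp only [h, map_one]
  · have h := hE 1
    simp only [Nat.factorial_one, Nat.cast_one, one_mul, mul_one] at h
    simp only [h, map_pow, map_natCast]
  · intro k hk
    obtain ⟨y, hy⟩ := hdvd k 3 (by have := hv k (by omega); omega)
    refine ⟨φ y, ?_⟩
    simp only
    rw [hy, map_mul, map_pow, map_natCast]
  · intro i j
    have h : E i * E j = ((i + j).choose i : ℤ_[p]) * E (i + j) := by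
      apply mul_left_cancel₀ (hfne i)
      apply mul_left_cancel₀ (hfne j)
      have h1 : ((i + j).choose i : ℤ_[p]) * (i.factorial : ℤ_[p]) * (j.factorial : ℤ_[p]) =
          ((i + j).factorial : ℤ_[p]) := by
        have h0 : (i + j).choose i * i.factorial * j.factorial = (i + j).factorial := by
          rw [Nat.choose_symm_add]
          exact Nat.add_choose_mul_factorial_mul_factorial i j
        exact_mod_cast congrArg (fun n : ℕ => (n : ℤ_[p])) h0
      calc (j.factorial : ℤ_[p]) * ((i.factorial : ℤ_[p]) * (E i * E j))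
          = ((i.factorial : ℤ_[p]) * E i) * ((j.factorial : ℤ_[p]) * E j) := by ring
        _ = (p : ℤ_[p]) ^ (2 * (i + j)) := by rw [hE, hE, ← pow_add, mul_add]
        _ = ((i + j).factorial : ℤ_[p]) * E (i + j) := (hE _).symm
        _ = _ := by rw [← h1]; ring
    simp only
    rw [← map_mul, h, map_mul, map_natCast]
  · intro k hk
    rcases Nat.eq_zero_or_pos k with h0 | h0
    · have hN : N = 0 := by omega
      subst hN
      exact Subsingleton.elim (α := ZMod (p ^ 0)) (h := by
        rw [pow_zero]; infer_instance) _ _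
    · obtain ⟨y, hy⟩ := hdvd k N (by have := hv k (by omega); omega)
      simp only
      rw [hy, map_mul, map_pow, map_natCast]
      have : ((p : ℕ) : ZMod (p ^ N)) ^ N = 0 := by
        rw [← Nat.cast_pow]; exact ZMod.natCast_self _
      rw [this, zero_mul]

/-- The truncated exponential. -/
theorem exists_exp (p : ℕ) [hp : Fact p.Prime] (N : ℕ) :
    ∃ E : ∀ {S : Type} [CommRing S] [Algebra (ZMod (p ^ N)) S], S → S,
      (∀ (S : Type) [CommRing S] [Algebra (ZMod (p ^ N)) S] (x y : S), E (x + y) = E x * E y) ∧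
      (∀ (S T : Type) [CommRing S] [Algebra (ZMod (p ^ N)) S] [CommRing T]
        [Algebra (ZMod (p ^ N)) T] (f : S →ₐ[ZMod (p ^ N)] T) (x : S), f (E x) = E (f x)) ∧
      (∀ (S : Type) [CommRing S] [Algebra (ZMod (p ^ N)) S] (j : ℕ) (x : S), ∃ z : S,
        E ((p : ZMod (p ^ N)) ^ j • x) = 1 + (p : ZMod (p ^ N)) ^ (j + 2) • (x + (p : ZMod (p ^ N)) • z))
      := by
  obtain ⟨e, he0, he1, he2, hemul, hek⟩ := exists_exp_coeff p N
  refine ⟨fun {S} _ _ x => ∑ k ∈ Finset.range (2 * N + 2), e k • x ^ k, ?_, ?_, ?_⟩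
  · intro S _ _ x y
    have hbig : ∀ i j, 2 * N + 2 ≤ i + j → e i * e j = 0 := by
      intro i j h
      rw [hemul, hek _ (by omega), mul_zero]
    have h1 : ∀ k, e k • (x + y) ^ k =
        ∑ ij ∈ Finset.HasAntidiagonal.antidiagonal k, (e ij.1 • x ^ ij.1) * (e ij.2 • y ^ ij.2) := by
      intro k
      rw [Commute.add_pow' (Commute.all x y), Finset.smul_sum]
      apply Finset.sum_congr rfl
      intro ij hij
      rw [Finset.HasAntidiagonal.mem_antidiagonal] at hij
      rw [smul_mul_smul_comm, hemul, hij]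
      rw [← hij, ← Nat.cast_smul_eq_nsmul (ZMod (p ^ N)), smul_smul, mul_comm]
    simp only
    rw [Finset.sum_congr rfl (fun k _ => h1 k), Finset.sum_mul_sum, ← Finset.sum_product']
    let s : Finset (ℕ × ℕ) := (Finset.range (2 * N + 2) ×ˢ Finset.range (2 * N + 2)).filter
      (fun ij => ij.1 + ij.2 < 2 * N + 2)
    have h2 : ∑ ij ∈ Finset.range (2 * N + 2) ×ˢ Finset.range (2 * N + 2),
        (e ij.1 • x ^ ij.1) * (e ij.2 • y ^ ij.2) =
        ∑ ij ∈ s, (e ij.1 • x ^ ij.1) * (e ij.2 • y ^ ij.2) := by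
      symm
      apply Finset.sum_subset (Finset.filter_subset _ _)
      intro ij hij hij2
      have h3 : 2 * N + 2 ≤ ij.1 + ij.2 := by
        by_contra h
        exact hij2 (Finset.mem_filter.mpr ⟨hij, by omega⟩)
      rw [smul_mul_smul_comm, hbig _ _ h3, zero_smul]
    rw [h2, ← Finset.sum_fiberwise_of_maps_to (s := s) (t := Finset.range (2 * N + 2))
      (g := fun ij => ij.1 + ij.2)]
    · apply Finset.sum_congr rfl
      intro k hk
      rw [Finset.mem_range] at hk
      apply Finset.sum_congr _ (fun _ _ => rfl)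
      ext ij
      simp only [s, Finset.HasAntidiagonal.mem_antidiagonal, Finset.mem_filter, Finset.mem_product,
        Finset.mem_range]
      constructor
      · intro h; omega
      · intro h; exact h.2
    · intro ij hij
      rw [Finset.mem_filter] at hij
      exact Finset.mem_range.mpr hij.2
  · intro S T _ _ _ _ f x
    simp
  · intro S _ _ j x
    choose! y hy using he2
    refine ⟨∑ k ∈ Finset.range (2 * N), (y (k + 2) * (p : ZMod (p ^ N)) ^ (j * (k + 1))) • x ^ (k + 2), ?_⟩
    simp only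
    rw [Finset.sum_range_succ', Finset.sum_range_succ', he0]
    rw [Finset.smul_sum, smul_add, Finset.smul_sum]
    have h1 : ∀ k, e (k + 1 + 1) • ((p : ZMod (p ^ N)) ^ j • x) ^ (k + 1 + 1) =
        (p : ZMod (p ^ N)) ^ (j + 2) • ((p : ZMod (p ^ N)) •
          ((y (k + 2) * (p : ZMod (p ^ N)) ^ (j * (k + 1))) • x ^ (k + 2))) := by
      intro k
      rw [hy (k + 1 + 1) (by omega), smul_pow, smul_smul, smul_smul, smul_smul]
      congr 1
      ring
    rw [Finset.sum_congr rfl (fun k _ => h1 k), zero_add, pow_one, pow_zero, one_smul, he1,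
      smul_smul, ← pow_add, add_comm 2 j, add_comm, add_comm (∑ i ∈ _, _)]

end Pool.Agent.H51b
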