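import Pool.Agent.H51.Stage
import Pool.Agent.H51b.ModStep

set_option autoImplicit false

namespace Pool.Agent.H51b

open Module Pool.Agent.H51

/-- Existence of good modules of all depths between `2` and `c`. -/
def Mods (p N c : ℕ) {G : Type} [Group G] (L : ℕ → Subgroup G) : Prop :=
  ∀ c', 2 ≤ c' → c' ≤ c → ∃ (V : Type) (_ : AddCommGroup V) (_ : Module (ZMod (p ^ N)) V),
    Module.Free (ZMod (p ^ N)) V ∧ Module.Finite (ZMod (p ^ N)) V ∧ Nontrivial V ∧
    ∃ ρ : G →* Module.End (ZMod (p ^ N)) V, GoodAct L (p : ZMod (p ^ N)) c' ρ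

theorem step (p : ℕ) [hp : Fact p.Prime] (N c : ℕ) (hN : 1 ≤ N) (hc : 1 ≤ c) {G : Type}
    [Group G] [Finite G] (L : ℕ → Subgroup G) (hL : IsLev L) (hR : ∀ k, RNM (L k))
    (hG : IsPGroup p G) (hM : Mods p N (c + 1) L) :
    ∃ (G' : Type) (_ : Group G') (_ : Finite G') (L' : ℕ → Subgroup G'), IsLev L' ∧
      (∀ k, RNM (L' k)) ∧ IsPGroup p G' ∧ Mods p N c L' ∧
      (∃ g ∈ derivedSeries G' 0, g ∉ L' 1) ∧
      (∀ d B, (∃ g ∈ derivedSeries G d, g ∉ L B) → (d + 1) * (B + c + 1) + 1 ≤ N →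
        ∃ g ∈ derivedSeries G' (d + 1), g ∉ L' ((d + 1) * (B + c + 1) + 1)) := by
  have hne : NeZero (p ^ N) := ⟨pow_ne_zero _ hp.out.ne_zero⟩
  obtain ⟨V', _, _, hfree', hfin', hnt', ρ', hg'⟩ := hM (c + 1) (by omega) le_rfl
  have hfinite' : Finite V' := Module.finite_of_finite (ZMod (p ^ N))
  have hlev : IsLev (LSD ρ' L (p : ZMod (p ^ N))) := isLev_LSD hL hg' (natCast_pow_eq_zero p N)
  obtain ⟨y₀, hy₀⟩ := free_exact_level (p := p) (N := N) hN (V := V')
  refine ⟨SD ρ', inferInstance, inferInstance, LSD ρ' L (p : ZMod (p ^ N)), hlev,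
    rnm_step hL hg' hR, isPGroup_SD hG, ?_, ?_, ?_⟩
  · intro c' hc' hc'c
    obtain ⟨V, _, _, hfree, hfin, hnt, ρ, hg⟩ := hM c' hc' (by omega)
    exact Pool.Agent.H51b.mod_step p N hN L hL.zero c' (c + 1) hc' (by omega) ρ' hg' ρ hg
  · refine ⟨⟨y₀, 1⟩, by rw [derivedSeries_zero]; exact Subgroup.mem_top _, ?_⟩
    rintro ⟨⟨z, hz⟩, _⟩
    apply hy₀ 0 (by omega) z
    rw [pow_zero, one_smul]
    exact hz
  · rintro d B ⟨g, hgd, hgB⟩ hBN
    -- exact level of g
    have hexl : ∃ l, l < B ∧ g ∈ L l ∧ g ∉ L (l + 1) := by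
      by_contra hno
      push Not at hno
      have : ∀ k, k ≤ B → g ∈ L k := by
        intro k
        induction k with
        | zero => intro _; rw [hL.zero]; exact Subgroup.mem_top _
        | succ k ih => intro hk; exact hno k (by omega) (ih (by omega))
      exact hgB (this B le_rfl)
    obtain ⟨l, hlB, hgl, hgl'⟩ := hexl
    obtain ⟨X, hX, hXu⟩ := hg' l g hgl
    have h1 := translation_mem_derived hgd hX (hXu hgl') (d + 1) le_rfl y₀
    have hle : (d + 1) * (l + (c + 1)) ≤ (d + 1) * (B + c + 1) :=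
      Nat.mul_le_mul_left _ (by omega)
    refine ⟨_, h1, ?_⟩
    intro h2
    have h3 := hlev.le (show (d + 1) * (l + (c + 1)) + 1 ≤ (d + 1) * (B + c + 1) + 1 by omega) h2
    obtain ⟨⟨z, hz⟩, _⟩ := h3
    exact hy₀ _ (by omega) z hz

/-- The statement at stage `d`. -/
def Stage (p N c d B : ℕ) : Prop :=
  ∃ (G : Type) (_ : Group G) (_ : Finite G) (L : ℕ → Subgroup G), IsLev L ∧
    (∀ k, RNM (L k)) ∧ IsPGroup p G ∧ Mods p N c L ∧ ∃ g ∈ derivedSeries G d, g ∉ L B

theorem exists_stage (p : ℕ) [hp : Fact p.Prime] (d : ℕ) :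
    ∀ c, 1 ≤ c → ∃ B, ∀ N, B ≤ N → 1 ≤ N → Stage p N c d B := by
  induction d with
  | zero =>
    intro c hc
    refine ⟨1, fun N _ hN => ?_⟩
    have hL : IsLev (fun _ : ℕ => (⊥ : Subgroup PUnit)) :=
      ⟨Subsingleton.elim _ _, fun _ => le_rfl, fun _ => inferInstance, ⟨0, rfl⟩⟩
    have hM : Mods p N (c + 1) (fun _ : ℕ => (⊥ : Subgroup PUnit)) := by
      intro c' _ _
      have : Fact (1 < p ^ N) := ⟨Nat.one_lt_pow (by omega) hp.out.one_lt⟩
      refine ⟨ZMod (p ^ N), inferInstance, inferInstance, inferInstance, inferInstance,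
        inferInstance, 1, ?_⟩
      intro l g _
      refine ⟨0, by simp, ?_⟩
      intro h
      exact absurd (Subsingleton.elim g 1) (fun hh => h (by rw [hh]; exact one_mem _))
    obtain ⟨G, i1, i2, L, h1, h2, h3, h4, h5, _⟩ := step p N c hN hc _ hL (fun _ => rnm_bot)
      (fun g => ⟨0, Subsingleton.elim _ _⟩) hM
    exact ⟨G, i1, i2, L, h1, h2, h3, h4, h5⟩
  | succ d ih =>
    intro c hc
    obtain ⟨B, hB⟩ := ih (c + 1) (by omega)
    refine ⟨(d + 1) * (B + c + 1) + 1, fun N hBN hN => ?_⟩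
    have hBle : B ≤ N := by
      have : B + c + 1 ≤ (d + 1) * (B + c + 1) := Nat.le_mul_of_pos_left _ (by omega)
      omega
    obtain ⟨G, i1, i2, L, h1, h2, h3, h4, h5⟩ := hB N hBle hN
    obtain ⟨G', j1, j2, L', k1, k2, k3, k4, _, k6⟩ := step p N c hN hc L h1 h2 h3 h4
    exact ⟨G', j1, j2, L', k1, k2, k3, k4, k6 d B h5 hBN⟩

open Classical in
/-- For every prime `p` there are normally monomial `p`-groups of arbitrarily large derived
length. -/
theorem exists_normally_monomial (p : ℕ) [hp : Fact p.Prime] (d : ℕ) :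
    ∃ (P : Type) (_ : Group P) (_ : Fintype P), IsPGroup p P ∧
      (∀ V : FDRep ℂ P, CategoryTheory.Simple V →
        ∃ N : Subgroup P, N.Normal ∧ ∃ lam : N →* ℂˣ, ∀ g : P,
          V.character g = (Nat.card N : ℂ)⁻¹ *
            ∑ x : P, (if h : x * g * x⁻¹ ∈ N then ((lam ⟨x * g * x⁻¹, h⟩ : ℂˣ) : ℂ) else 0)) ∧
      derivedSeries P d ≠ ⊥ := by
  obtain ⟨B, hB⟩ := exists_stage p d 1 le_rfl
  obtain ⟨G, _, _, L, hL, hR, hG, _, g, hg, hgB⟩ := hB (max B 1) (le_max_left _ _)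
    (le_max_right _ _)
  have hfin : Fintype G := Fintype.ofFinite G
  refine ⟨G, inferInstance, hfin, hG, ?_, ?_⟩
  · intro V hV
    have hnt : Nontrivial V := by
      by_contra h
      rw [not_nontrivial_iff_subsingleton] at h
      apply CategoryTheory.id_nonzero V
      apply CategoryTheory.ConcreteCategory.hom_ext
      intro x
      exact Subsingleton.elim _ _
    have hmem : ∀ g : G, g ∈ L 0 := fun g => by rw [hL.zero]; exact Subgroup.mem_top _
    obtain ⟨S, hSL, hS, σ, w, hw, heig, hstab⟩ := hR 0 V (V.ρ.comp (L 0).subtype)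
    refine ⟨S, hS, σ.toHomUnits, ?_⟩
    apply character_formula V hV S hS σ.toHomUnits w hw
    · intro n
      exact heig n
    · intro g hg
      apply hstab g (hmem g)
      intro s
      have := congrArg (fun u : ℂˣ => (u : ℂ)) (hg s)
      exact this
  · intro h
    rw [h, Subgroup.mem_bot] at hg
    exact hgB (by rw [hg]; exact one_mem _)

end Pool.Agent.H51b
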